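import Mathlib
import Pool.Agent.H54.Fold

set_option autoImplicit false

namespace Pool.Agent.Results.MP_4efd57_nt.Paperfold

open Pool.Agent.H54.Fold

/-- A completely multiplicative function with values 1 and -1 on the positive integers whose
correlation sums along all homogeneous progressions are bounded by 1. -/
theorem result :
    ∃ f : ℕ → ℂ, (∀ n : ℕ, 1 ≤ n → ‖f n‖ = 1) ∧ (∀ n : ℕ, 1 ≤ n → f n = 1 ∨ f n = -1) ∧
      (∀ m n : ℕ, f (m * n) = f m * f n) ∧
      ∀ d n : ℕ, 1 ≤ d → 1 ≤ n →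
        ‖∑ k ∈ Finset.Icc 1 n, f (k * d) * f (k * d + d)‖ ≤ 1 := by
  refine ⟨fun n => (f4 n : ℂ), fun n hn => ?_, fun n hn => ?_, fun m n => ?_,
    fun d n hd _ => ?_⟩
  · rcases f4_pm n (by omega) with h | h <;> simp [h]
  · rcases f4_pm n (by omega) with h | h <;> simp [h]
  · simp [f4_mul]
  · have hd2 : f4 d * f4 d = 1 := by
      rcases f4_pm d (by omega) with h | h <;> simp [h]
    have h1 : ∑ k ∈ Finset.Icc 1 n, (f4 (k * d) : ℂ) * (f4 (k * d + d) : ℂ)
        = ((∑ k ∈ Finset.Icc 1 n, f4 k * f4 (k + 1) : ℤ) : ℂ) := by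
      push_cast
      refine Finset.sum_congr rfl (fun k _ => ?_)
      have : f4 (k * d) * f4 (k * d + d) = f4 k * f4 (k + 1) := by
        rw [show k * d + d = (k + 1) * d by ring, f4_mul, f4_mul]
        linear_combination (f4 k * f4 (k + 1)) * hd2
      exact_mod_cast this
    rw [h1, Complex.norm_intCast]
    exact_mod_cast f4_sum n

end Pool.Agent.Results.MP_4efd57_nt.Paperfold
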